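import Mathlib

/-!
# Families of finite sets without infinite members: small convex combinations

`Adm` is a hereditary family of finite subsets of `Γ` such that no infinite set has all its finite
subsets in the family.
-/

set_option autoImplicit false

open Finset

namespace Pool.Agent.Helper36.NS

variable {Γ : Type*} (Adm : Finset Γ → Prop)

/-- finitely supported nonnegative weights giving mass at most one to admissible sets -/
def GG : Set (Γ →₀ ℝ) := {g | (∀ c, 0 ≤ g c) ∧ ∀ F, Adm F → ∑ c ∈ F, g c ≤ 1}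

theorem convex_GG : Convex ℝ (GG Adm) := by
  intro g hg h hh a b ha hb hab
  refine ⟨fun c => ?_, fun F hF => ?_⟩
  · have := mul_nonneg ha (hg.1 c)
    have := mul_nonneg hb (hh.1 c)
    simp only [Finsupp.coe_add, Finsupp.coe_smul, Pi.add_apply, Pi.smul_apply, smul_eq_mul]
    linarith
  · have h1 := hg.2 F hF
    have h2 := hh.2 F hF
    simp only [Finsupp.coe_add, Finsupp.coe_smul, Pi.add_apply, Pi.smul_apply, smul_eq_mul,
      Finset.sum_add_distrib, ← Finset.mul_sum]
    nlinarith

/-- a subfamily on which some convex combination of far terms is small -/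
def Good (A : Set (Finset Γ)) : Prop :=
  ∀ g : ℕ → Γ →₀ ℝ, (∀ j, g j ∈ GG Adm) →
    (∀ i j, i ≠ j → Disjoint (g i).support (g j).support) →
    ∀ ε : ℝ, 0 < ε → ∀ N : ℕ, ∃ N' > N, ∃ h ∈ convexHull ℝ (g '' Set.Ico N N'),
      ∀ F ∈ A, ∑ c ∈ F, h c < ε

variable {Adm}

theorem Good.mono {A B : Set (Finset Γ)} (h : Good Adm B) (hAB : A ⊆ B) : Good Adm A := by
  intro g hg hd ε hε N
  obtain ⟨N', hN', k, hk, hk'⟩ := h g hg hd ε hε N
  exact ⟨N', hN', k, hk, fun F hF => hk' F (hAB hF)⟩

theorem good_empty : Good Adm (∅ : Set (Finset Γ)) := by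
  intro g _ _ ε _ N
  refine ⟨N + 1, by omega, g N, subset_convexHull ℝ _ ⟨N, ⟨le_rfl, by omega⟩, rfl⟩, ?_⟩
  intro F hF
  exact absurd hF (Set.notMem_empty F)

theorem hull_GG {g : ℕ → Γ →₀ ℝ} (hg : ∀ j, g j ∈ GG Adm) {S : Set ℕ} {h : Γ →₀ ℝ}
    (hh : h ∈ convexHull ℝ (g '' S)) : h ∈ GG Adm := by
  apply convexHull_min _ (convex_GG Adm) hh
  rintro _ ⟨j, _, rfl⟩
  exact hg j

/-- members of the hull vanish where all generators vanish -/
theorem hull_zero {g : ℕ → Γ →₀ ℝ} {S : Set ℕ} {h : Γ →₀ ℝ}
    (hh : h ∈ convexHull ℝ (g '' S)) {c : Γ} (hc : ∀ j ∈ S, g j c = 0) : h c = 0 := by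
  have hconv : Convex ℝ {k : Γ →₀ ℝ | k c = 0} := by
    intro a ha b hb s t _ _ _
    simp only [Set.mem_ofPred_eq] at ha hb
    simp [ha, hb]
  have := convexHull_min (t := {k : Γ →₀ ℝ | k c = 0}) (s := g '' S) ?_ hconv hh
  · exact this
  · rintro _ ⟨j, hj, rfl⟩
    exact hc j hj

theorem hull_support {g : ℕ → Γ →₀ ℝ} {S : Set ℕ} {h : Γ →₀ ℝ}
    (hh : h ∈ convexHull ℝ (g '' S)) {c : Γ} (hc : h c ≠ 0) : ∃ j ∈ S, g j c ≠ 0 := by
  by_contra hcon
  push Not at hcon
  exact hc (hull_zero hh hcon)

/-- disjointness of blocks -/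
theorem hull_disjoint {g : ℕ → Γ →₀ ℝ}
    (hd : ∀ i j, i ≠ j → Disjoint (g i).support (g j).support) {S T : Set ℕ}
    (hST : Disjoint S T) {h k : Γ →₀ ℝ}
    (hh : h ∈ convexHull ℝ (g '' S)) (hk : k ∈ convexHull ℝ (g '' T)) :
    Disjoint h.support k.support := by
  classical
  rw [Finset.disjoint_left]
  intro c hc hc'
  rw [Finsupp.mem_support_iff] at hc hc'
  obtain ⟨i, hi, hic⟩ := hull_support hh hc
  obtain ⟨j, hj, hjc⟩ := hull_support hk hc'
  have hij : i ≠ j := by
    rintro rfl
    exact Set.disjoint_left.1 hST hi hj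
  exact Finset.disjoint_left.1 (hd i j hij) (Finsupp.mem_support_iff.2 hic)
    (Finsupp.mem_support_iff.2 hjc)

/-- iterating a strictly increasing step function -/
theorem iter_lt {nxt : ℕ → ℕ} (hn : ∀ N, N < nxt N) (N₀ : ℕ) :
    StrictMono fun i => nxt^[i] N₀ := by
  apply strictMono_nat_of_lt_succ
  intro i
  rw [Function.iterate_succ_apply']
  exact hn _

theorem Good.union {A B : Set (Finset Γ)} (hA : Good Adm A) (hB : Good Adm B) :
    Good Adm (A ∪ B) := by
  intro g hg hd ε hε N
  have h1 := hA g hg hd ε hε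
  choose nxt hnxt hh hmem hsmall using h1
  set M : ℕ → ℕ := fun i => nxt^[i] N with hM
  have hMmono : StrictMono M := iter_lt hnxt N
  have hMs : ∀ i, M (i + 1) = nxt (M i) := fun i => Function.iterate_succ_apply' nxt i N
  set k : ℕ → Γ →₀ ℝ := fun i => hh (M i) with hk
  have hkmem : ∀ i, k i ∈ convexHull ℝ (g '' Set.Ico (M i) (M (i + 1))) := by
    intro i; rw [hMs]; exact hmem (M i)
  have hkG : ∀ i, k i ∈ GG Adm := fun i => hull_GG hg (hkmem i)
  have hkd : ∀ i j, i ≠ j → Disjoint (k i).support (k j).support := by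
    have hlt : ∀ i j, i < j → Disjoint (k i).support (k j).support := by
      intro i j hij
      apply hull_disjoint hd _ (hkmem i) (hkmem j)
      rw [Set.disjoint_left]
      intro a ha ha'
      have := hMmono.monotone (by omega : i + 1 ≤ j)
      have h2 := ha.2
      have h3 := ha'.1
      omega
    intro i j hij
    rcases lt_or_gt_of_ne hij with h | h
    · exact hlt i j h
    · exact (hlt j i h).symm
  obtain ⟨n', hn', h, hh', hsm⟩ := hB k hkG hkd ε hε 0
  refine ⟨M n', ?_, h, ?_, ?_⟩
  · have := hMmono hn'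
    have h0 : M 0 = N := rfl
    omega
  · apply convexHull_min _ (convex_convexHull ℝ _) hh'
    rintro _ ⟨i, hi, rfl⟩
    apply convexHull_mono _ (hkmem i)
    apply Set.image_mono
    intro a ha
    have h0 : M 0 ≤ M i := hMmono.monotone (Nat.zero_le _)
    have h1 : M (i + 1) ≤ M n' := hMmono.monotone hi.2
    have h00 : M 0 = N := rfl
    exact ⟨by have := ha.1; omega, by have := ha.2; omega⟩
  · intro F hF
    rcases hF with hF | hF
    · have hconv : Convex ℝ {k : Γ →₀ ℝ | ∑ c ∈ F, k c < ε} := by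
        intro a ha b hb s t hs ht hst
        simp only [Set.mem_ofPred_eq] at ha hb ⊢
        simp only [Finsupp.coe_add, Finsupp.coe_smul, Pi.add_apply, Pi.smul_apply, smul_eq_mul,
          Finset.sum_add_distrib, ← Finset.mul_sum]
        rcases hs.eq_or_lt with h0 | h0
        · have : t = 1 := by linarith
          subst this; rw [← h0]; linarith
        · have h1 := mul_lt_mul_of_pos_left ha h0
          have h2 := mul_le_mul_of_nonneg_left hb.le ht
          have h3 : s * ε + t * ε = ε := by rw [← add_mul, hst, one_mul]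
          linarith
      have := convexHull_min (t := {k : Γ →₀ ℝ | ∑ c ∈ F, k c < ε}) ?_ hconv hh'
      · exact this
      · rintro _ ⟨i, _, rfl⟩
        exact hsmall (M i) F hF
    · exact hsm F hF

theorem good_biUnion {ι : Type*} (s : Finset ι) (A : ι → Set (Finset Γ))
    (h : ∀ i ∈ s, Good Adm (A i)) : Good Adm (⋃ i ∈ s, A i) := by
  classical
  induction s using Finset.induction_on with
  | empty => simpa using good_empty
  | insert a s ha ih =>
    rw [Finset.set_biUnion_insert]
    exact (h a (Finset.mem_insert_self _ _)).union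
      (ih fun i hi => h i (Finset.mem_insert_of_mem hi))

/-- eventually the supports avoid a given finite set -/
theorem eventually_disjoint {g : ℕ → Γ →₀ ℝ}
    (hd : ∀ i j, i ≠ j → Disjoint (g i).support (g j).support) (B : Finset Γ) :
    ∃ N, ∀ j ≥ N, Disjoint (g j).support B := by
  classical
  have hfin : {j | ¬ Disjoint (g j).support B}.Finite := by
    have h1 : ∀ j : {j | ¬ Disjoint (g j).support B}, ∃ c ∈ B, c ∈ (g j).support := by
      rintro ⟨j, hj⟩
      simp only [Set.mem_ofPred_eq, Finset.not_disjoint_iff] at hj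
      obtain ⟨c, hc, hc'⟩ := hj
      exact ⟨c, hc', hc⟩
    choose f hf hf' using h1
    have hinj : Function.Injective (fun j => (⟨f j, hf j⟩ : B)) := by
      intro i j hij
      have hij' : f i = f j := congrArg Subtype.val hij
      by_contra hne
      have hne' : (i : ℕ) ≠ j := fun h => hne (Subtype.ext h)
      apply Finset.disjoint_left.1 (hd i j hne') (hf' i)
      rw [hij']; exact hf' j
    have : Finite {j | ¬ Disjoint (g j).support B} := Finite.of_injective _ hinj
    exact Set.toFinite _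
  obtain ⟨N, hN⟩ := hfin.bddAbove
  refine ⟨N + 1, fun j hj => ?_⟩
  by_contra hcon
  have : j ≤ N := hN hcon
  omega

section link

variable [DecidableEq Γ] (hered : ∀ F F' : Finset Γ, Adm F → F' ⊆ F → Adm F')

include hered

/-- the step from the links to the family -/
theorem good_link (B : Finset Γ)
    (hB : ∀ c ∉ B, Good Adm {A : Finset Γ | Adm A ∧ insert c B ⊆ A}) :
    Good Adm {A : Finset Γ | Adm A ∧ B ⊆ A} := by
  classical
  intro g hg hd ε hε N
  obtain ⟨N₀, hN₀⟩ := eventually_disjoint hd B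
  obtain ⟨k, hk⟩ := exists_nat_gt (2 / ε)
  have hk0 : 0 < k := by
    have : (0 : ℝ) < k := lt_trans (by positivity) hk
    exact_mod_cast this
  have hkR : (0 : ℝ) < k := by exact_mod_cast hk0
  -- blocks which are small on the links of previous points
  have hstep : ∀ n : ℕ, ∃ n' > n, ∃ h ∈ convexHull ℝ (g '' Set.Ico n n'),
      ∀ F ∈ ⋃ c ∈ (((Finset.range n).biUnion fun j => (g j).support) \ B),
        {A : Finset Γ | Adm A ∧ insert c B ⊆ A}, ∑ c ∈ F, h c < ε / 2 := by
    intro n
    have := good_biUnion (((Finset.range n).biUnion fun j => (g j).support) \ B)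
      (fun c => {A : Finset Γ | Adm A ∧ insert c B ⊆ A})
      (fun c hc => hB c (Finset.mem_sdiff.1 hc).2)
    exact this g hg hd (ε / 2) (by positivity) n
  choose nxt hnxt hh hmem hsmall using hstep
  set M : ℕ → ℕ := fun i => nxt^[i] (max N N₀) with hM
  have hMmono : StrictMono M := iter_lt hnxt _
  have hMs : ∀ i, M (i + 1) = nxt (M i) := fun i => Function.iterate_succ_apply' nxt i _
  have hM0 : ∀ i, max N N₀ ≤ M i := fun i => hMmono.monotone (Nat.zero_le i)
  set b : ℕ → Γ →₀ ℝ := fun i => hh (M i) with hb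
  have hbmem : ∀ i, b i ∈ convexHull ℝ (g '' Set.Ico (M i) (M (i + 1))) := by
    intro i; rw [hMs]; exact hmem (M i)
  have hbG : ∀ i, b i ∈ GG Adm := fun i => hull_GG hg (hbmem i)
  -- supports
  have hbsupp : ∀ i c, b i c ≠ 0 → c ∉ B ∧ ∀ i' > i,
      c ∈ ((Finset.range (M i')).biUnion fun j => (g j).support) := by
    intro i c hc
    obtain ⟨j, hj, hjc⟩ := hull_support (hbmem i) hc
    refine ⟨?_, fun i' hi' => ?_⟩
    · intro hcB
      have h1 : N₀ ≤ j := (le_max_right _ _).trans ((hM0 i).trans hj.1)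
      exact Finset.disjoint_left.1 (hN₀ j h1) (Finsupp.mem_support_iff.2 hjc) hcB
    · rw [Finset.mem_biUnion]
      refine ⟨j, ?_, Finsupp.mem_support_iff.2 hjc⟩
      rw [Finset.mem_range]
      have := hMmono.monotone (by omega : i + 1 ≤ i')
      have := hj.2
      omega
  set h : Γ →₀ ℝ := ∑ i ∈ Finset.range k, (k : ℝ)⁻¹ • b i with hhdef
  refine ⟨M k, ?_, h, ?_, ?_⟩
  · have := hMmono hk0
    have := hM0 0
    have := le_max_left N N₀
    omega
  · apply (convex_convexHull ℝ _).sum_mem
    · intro i _; positivity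
    · rw [Finset.sum_const, Finset.card_range, nsmul_eq_mul, mul_inv_cancel₀ hkR.ne']
    · intro i hi
      apply convexHull_mono _ (hbmem i)
      apply Set.image_mono
      intro a ha
      rw [Finset.mem_range] at hi
      have h1 : M (i + 1) ≤ M k := hMmono.monotone hi
      have h2 := hM0 i
      have h3 := le_max_left N N₀
      exact ⟨by have := ha.1; omega, by have := ha.2; omega⟩
  · rintro F ⟨hF, hBF⟩
    have hsum : ∑ c ∈ F, h c = (k : ℝ)⁻¹ * ∑ i ∈ Finset.range k, ∑ c ∈ F, b i c := by
      have h1 : ∀ c, h c = ∑ i ∈ Finset.range k, (k : ℝ)⁻¹ * b i c := by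
        intro c
        rw [hhdef, Finsupp.finset_sum_apply]
        rfl
      simp only [h1]
      rw [Finset.sum_comm, Finset.mul_sum]
      apply Finset.sum_congr rfl
      intro i _
      rw [Finset.mul_sum]
    rw [hsum]
    have hnn : ∀ i, 0 ≤ ∑ c ∈ F, b i c := fun i => Finset.sum_nonneg fun c _ => (hbG i).1 c
    by_cases hex : ∃ i, ∃ c ∈ F, b i c ≠ 0
    · -- the first block met by F
      have hfind := Nat.find_spec hex
      have hmin := fun i (hi : i < Nat.find hex) => Nat.find_min hex hi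
      set i₀ := Nat.find hex with hi₀
      obtain ⟨c₀, hc₀F, hc₀⟩ := hfind
      obtain ⟨hc₀B, hc₀s⟩ := hbsupp i₀ c₀ hc₀
      have hlt : ∀ i < i₀, ∑ c ∈ F, b i c = 0 := by
        intro i hi
        apply Finset.sum_eq_zero
        intro c hc
        by_contra hne
        exact hmin i hi ⟨c, hc, hne⟩
      have hgt : ∀ i > i₀, ∑ c ∈ F, b i c < ε / 2 := by
        intro i hi
        apply hsmall (M i) F
        rw [Set.mem_iUnion₂]
        exact ⟨c₀, Finset.mem_sdiff.2 ⟨hc₀s i hi, hc₀B⟩, hF,
          Finset.insert_subset_iff.2 ⟨hc₀F, hBF⟩⟩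
      have h1 : ∀ i ∈ Finset.range k, ∑ c ∈ F, b i c ≤ (if i = i₀ then 1 else 0) + ε / 2 := by
        intro i _
        rcases lt_trichotomy i i₀ with hi | hi | hi
        · rw [hlt i hi, if_neg (by omega)]; positivity
        · rw [if_pos hi]
          have := (hbG i).2 F hF
          linarith
        · rw [if_neg (by omega)]
          have := hgt i hi
          linarith
      have h2 := Finset.sum_le_sum h1
      rw [Finset.sum_add_distrib, Finset.sum_const, Finset.card_range, nsmul_eq_mul] at h2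
      have h3 : ∑ i ∈ Finset.range k, (if i = i₀ then (1 : ℝ) else 0) ≤ 1 := by
        rw [Finset.sum_ite_eq']
        split_ifs <;> norm_num
      have h4 : ∑ i ∈ Finset.range k, ∑ c ∈ F, b i c ≤ 1 + k * (ε / 2) := by linarith
      have h5 : 2 / ε < k := hk
      rw [div_lt_iff₀ hε] at h5
      rw [inv_mul_lt_iff₀ hkR]
      linarith
    · push Not at hex
      have : ∑ i ∈ Finset.range k, ∑ c ∈ F, b i c = 0 :=
        Finset.sum_eq_zero fun i _ => Finset.sum_eq_zero fun c hc => hex i c hc
      rw [this, mul_zero]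
      exact hε

/-- Ptak-type lemma: disjointly supported weights have convex combinations which are small on all
admissible sets. -/
theorem good_all (hfin : ∀ G : Set Γ, (∀ F : Finset Γ, (F : Set Γ) ⊆ G → Adm F) → G.Finite) :
    Good Adm {A : Finset Γ | Adm A} := by
  classical
  by_contra hcon
  have h0 : ¬ Good Adm {A : Finset Γ | Adm A ∧ (∅ : Finset Γ) ⊆ A} := by
    intro h
    exact hcon (h.mono fun A hA => ⟨hA, Finset.empty_subset _⟩)
  have hstep : ∀ B : {B : Finset Γ // ¬ Good Adm {A : Finset Γ | Adm A ∧ B ⊆ A}},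
      ∃ c ∉ B.1, ¬ Good Adm {A : Finset Γ | Adm A ∧ insert c B.1 ⊆ A} := by
    rintro ⟨B, hB⟩
    by_contra hall
    push Not at hall
    exact hB (good_link hered B hall)
  choose c hc hc' using hstep
  set nx : {B : Finset Γ // ¬ Good Adm {A : Finset Γ | Adm A ∧ B ⊆ A}} →
      {B : Finset Γ // ¬ Good Adm {A : Finset Γ | Adm A ∧ B ⊆ A}} :=
    fun B => ⟨insert (c B) B.1, hc' B⟩ with hnx
  set S : ℕ → {B : Finset Γ // ¬ Good Adm {A : Finset Γ | Adm A ∧ B ⊆ A}} :=
    fun n => nx^[n] ⟨∅, h0⟩ with hS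
  have hSs : ∀ n, (S (n + 1)).1 = insert (c (S n)) (S n).1 := by
    intro n
    have : S (n + 1) = nx (S n) := Function.iterate_succ_apply' nx n _
    rw [this]
  have hsub : ∀ n, (S n).1 ⊆ (S (n + 1)).1 := fun n => by
    rw [hSs]; exact Finset.subset_insert _ _
  have hmono : Monotone fun n => (S n).1 := monotone_nat_of_le_succ hsub
  have hcard : ∀ n, n ≤ (S n).1.card := by
    intro n
    induction n with
    | zero => exact Nat.zero_le _
    | succ n ih =>
      rw [hSs, Finset.card_insert_of_notMem (hc _)]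
      omega
  have hAdm : ∀ n, Adm (S n).1 := by
    intro n
    by_contra hno
    apply (S n).2
    apply Good.mono good_empty
    rintro A ⟨hA, hSA⟩
    exact absurd (hered A _ hA hSA) hno
  have hG := hfin (⋃ n, ((S n).1 : Set Γ)) ?_
  · -- infinite
    set F := hG.toFinset with hF
    have h1 : (S (F.card + 1)).1 ⊆ F := by
      intro x hx
      rw [hF, Set.Finite.mem_toFinset, Set.mem_iUnion]
      exact ⟨_, hx⟩
    have h2 := Finset.card_le_card h1
    have h3 := hcard (F.card + 1)
    omega
  · intro F hF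
    have h1 : ∃ n, F ⊆ (S n).1 := by
      have h2 : ∀ x : F, ∃ n, (x : Γ) ∈ (S n).1 := by
        intro x
        have := hF x.2
        rw [Set.mem_iUnion] at this
        exact this
      choose f hf using h2
      refine ⟨Finset.univ.sup f, fun x hx => ?_⟩
      exact hmono (Finset.le_sup (f := f) (Finset.mem_univ ⟨x, hx⟩)) (hf ⟨x, hx⟩)
    obtain ⟨n, hn⟩ := h1
    exact hered _ _ (hAdm n) hn

end link

end Pool.Agent.Helper36.NS
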