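import Mathlib
import Pool.Agent.Helper36.NS.Family

/-!
# The space attached to a family of finite sets
-/

set_option autoImplicit false

open Finset

namespace Pool.Agent.Helper36.NS

section quad

variable {Γ : Type*}

/-- weighted square sum -/
noncomputable def q (g : Γ →₀ ℝ) (x : Γ → ℝ) : ℝ :=
  Finsupp.linearCombination ℝ (fun c => x c ^ 2) g

theorem q_eq (g : Γ →₀ ℝ) (x : Γ → ℝ) : q g x = ∑ c ∈ g.support, g c * x c ^ 2 := by
  simp [q, Finsupp.linearCombination_apply, Finsupp.sum]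

theorem q_eq_of_subset (g : Γ →₀ ℝ) (x : Γ → ℝ) (s : Finset Γ) (hs : g.support ⊆ s) :
    q g x = ∑ c ∈ s, g c * x c ^ 2 := by
  rw [q_eq]
  apply Finset.sum_subset hs
  intro c _ hc
  rw [Finsupp.notMem_support_iff.1 hc, zero_mul]

theorem q_nonneg {g : Γ →₀ ℝ} (hg : ∀ c, 0 ≤ g c) (x : Γ → ℝ) : 0 ≤ q g x := by
  rw [q_eq]
  exact Finset.sum_nonneg fun c _ => mul_nonneg (hg c) (sq_nonneg _)

/-- the seminorm attached to a weight -/
noncomputable def p (g : Γ →₀ ℝ) (x : Γ → ℝ) : ℝ := Real.sqrt (q g x)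

theorem p_nonneg (g : Γ →₀ ℝ) (x : Γ → ℝ) : 0 ≤ p g x := Real.sqrt_nonneg _

theorem p_sq {g : Γ →₀ ℝ} (hg : ∀ c, 0 ≤ g c) (x : Γ → ℝ) : p g x ^ 2 = q g x :=
  Real.sq_sqrt (q_nonneg hg x)

/-- Cauchy-Schwarz -/
theorem cs {g : Γ →₀ ℝ} (hg : ∀ c, 0 ≤ g c) (x y : Γ → ℝ) :
    ∑ c ∈ g.support, g c * x c * y c ≤ p g x * p g y := by
  have h := Finset.sum_mul_sq_le_sq_mul_sq g.support (fun c => Real.sqrt (g c) * x c)
    (fun c => Real.sqrt (g c) * y c)
  have h1 : ∀ c, Real.sqrt (g c) * x c * (Real.sqrt (g c) * y c) = g c * x c * y c := by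
    intro c
    have := Real.mul_self_sqrt (hg c)
    linear_combination x c * y c * this
  have h2 : ∀ z : Γ → ℝ, ∀ c, (Real.sqrt (g c) * z c) ^ 2 = g c * z c ^ 2 := by
    intro z c
    rw [mul_pow, Real.sq_sqrt (hg c)]
  simp only [h1, h2, ← q_eq] at h
  apply le_of_sq_le_sq _ (mul_nonneg (p_nonneg g x) (p_nonneg g y)) |> fun h => h
  rw [mul_pow, p_sq hg, p_sq hg]
  exact h

theorem p_add_le {g : Γ →₀ ℝ} (hg : ∀ c, 0 ≤ g c) (x y : Γ → ℝ) :
    p g (x + y) ≤ p g x + p g y := by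
  apply le_of_sq_le_sq _ (add_nonneg (p_nonneg g x) (p_nonneg g y)) |> fun h => h
  rw [p_sq hg, add_sq, p_sq hg, p_sq hg]
  have h := cs hg x y
  have h1 : q g (x + y) = q g x + 2 * (∑ c ∈ g.support, g c * x c * y c) + q g y := by
    rw [q_eq, q_eq, q_eq, Finset.mul_sum, ← Finset.sum_add_distrib, ← Finset.sum_add_distrib]
    apply Finset.sum_congr rfl
    intro c _
    rw [Pi.add_apply]
    ring
  rw [h1]
  linarith

theorem q_smul (g : Γ →₀ ℝ) (a : ℝ) (x : Γ → ℝ) : q g (a • x) = a ^ 2 * q g x := by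
  rw [q_eq, q_eq, Finset.mul_sum]
  apply Finset.sum_congr rfl
  intro c _
  rw [Pi.smul_apply, smul_eq_mul]
  ring

theorem p_smul (g : Γ →₀ ℝ) (a : ℝ) (x : Γ → ℝ) : p g (a • x) = |a| * p g x := by
  rw [p, q_smul, Real.sqrt_mul (sq_nonneg a), Real.sqrt_sq_eq_abs, p]

theorem p_zero (g : Γ →₀ ℝ) : p g (0 : Γ → ℝ) = 0 := by
  rw [p, q_eq]; simp

/-- monotonicity in absolute values -/
theorem p_mono {g : Γ →₀ ℝ} (hg : ∀ c, 0 ≤ g c) {x y : Γ → ℝ} (h : ∀ c, |x c| ≤ |y c|) :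
    p g x ≤ p g y := by
  apply Real.sqrt_le_sqrt
  rw [q_eq, q_eq]
  apply Finset.sum_le_sum
  intro c _
  exact mul_le_mul_of_nonneg_left (sq_le_sq.2 (h c)) (hg c)

end quad

section space

variable {Γ : Type*} (Adm : Finset Γ → Prop)

theorem zero_mem_GG : (0 : Γ →₀ ℝ) ∈ GG Adm := by
  refine ⟨fun c => le_rfl, fun F _ => ?_⟩
  simp

instance : Nonempty (GG Adm) := ⟨⟨0, zero_mem_GG Adm⟩⟩

open Classical in
theorem single_mem_GG (c : Γ) : Finsupp.single c (1 : ℝ) ∈ GG Adm := by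
  refine ⟨fun c' => ?_, fun F _ => ?_⟩
  · rw [Finsupp.single_apply]; split_ifs <;> norm_num
  · simp only [Finsupp.single_apply]
    rw [Finset.sum_ite_eq]
    split_ifs <;> norm_num

/-- the functions with finite norm -/
def Sp : Submodule ℝ (Γ → ℝ) where
  carrier := {x | ∃ M, ∀ g ∈ GG Adm, p g x ≤ M}
  zero_mem' := ⟨0, fun g _ => by rw [p_zero]⟩
  add_mem' := by
    rintro x y ⟨M, hM⟩ ⟨N, hN⟩
    exact ⟨M + N, fun g hg => (p_add_le hg.1 x y).trans (add_le_add (hM g hg) (hN g hg))⟩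
  smul_mem' := by
    rintro a x ⟨M, hM⟩
    exact ⟨|a| * M, fun g hg => by
      rw [p_smul]; exact mul_le_mul_of_nonneg_left (hM g hg) (abs_nonneg a)⟩

/-- the space of functions with finite norm -/
def XX : Type _ := Sp Adm

noncomputable instance : AddCommGroup (XX Adm) := inferInstanceAs (AddCommGroup (Sp Adm))
noncomputable instance : Module ℝ (XX Adm) := inferInstanceAs (Module ℝ (Sp Adm))

variable {Adm}

/-- the underlying function -/
def fn (x : XX Adm) : Γ → ℝ := Subtype.val (p := fun x => x ∈ Sp Adm) x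

theorem fn_add (x y : XX Adm) : fn (x + y) = fn x + fn y := rfl
theorem fn_smul (a : ℝ) (x : XX Adm) : fn (a • x) = a • fn x := rfl
theorem fn_zero : fn (0 : XX Adm) = 0 := rfl
theorem fn_neg (x : XX Adm) : fn (-x) = -fn x := rfl
theorem fn_sub (x y : XX Adm) : fn (x - y) = fn x - fn y := rfl
theorem fn_inj {x y : XX Adm} (h : fn x = fn y) : x = y := Subtype.ext h

theorem fn_mem (x : XX Adm) : ∃ M, ∀ g ∈ GG Adm, p g (fn x) ≤ M := x.2

/-- the coefficients as a linear map -/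
def fnL : XX Adm →ₗ[ℝ] (Γ → ℝ) where
  toFun := fn
  map_add' := fn_add
  map_smul' := fn_smul

noncomputable instance : Norm (XX Adm) := ⟨fun x => ⨆ g : GG Adm, p g.1 (fn x)⟩

theorem norm_def (x : XX Adm) : ‖x‖ = ⨆ g : GG Adm, p g.1 (fn x) := rfl

theorem bdd (x : XX Adm) : BddAbove (Set.range fun g : GG Adm => p g.1 (fn x)) := by
  obtain ⟨M, hM⟩ := fn_mem x
  exact ⟨M, by rintro _ ⟨g, rfl⟩; exact hM g.1 g.2⟩

theorem p_le_norm (x : XX Adm) {g : Γ →₀ ℝ} (hg : g ∈ GG Adm) : p g (fn x) ≤ ‖x‖ :=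
  le_ciSup (bdd x) ⟨g, hg⟩

theorem norm_le' (x : XX Adm) {M : ℝ} (h : ∀ g ∈ GG Adm, p g (fn x) ≤ M) : ‖x‖ ≤ M :=
  ciSup_le fun g => h g.1 g.2

theorem core : NormedSpace.Core ℝ (XX Adm) where
  norm_nonneg x := (p_nonneg 0 (fn x)).trans (p_le_norm x (zero_mem_GG Adm))
  norm_smul a x := by
    rw [norm_def, norm_def, Real.norm_eq_abs]
    have : ∀ g : GG Adm, p g.1 (fn (a • x)) = |a| * p g.1 (fn x) := fun g => p_smul g.1 a (fn x)
    simp only [this]
    rw [Real.mul_iSup_of_nonneg (abs_nonneg a)]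
  norm_triangle x y := by
    apply norm_le'
    intro g hg
    rw [fn_add]
    exact (p_add_le hg.1 _ _).trans (add_le_add (p_le_norm x hg) (p_le_norm y hg))
  norm_eq_zero_iff x := by
    classical
    constructor
    · intro h
      apply fn_inj
      funext c
      have h1 := p_le_norm x (single_mem_GG Adm c)
      rw [h] at h1
      have h2 := p_sq (single_mem_GG Adm c).1 (fn x)
      have h3 : p (Finsupp.single c 1) (fn x) = 0 := le_antisymm h1 (p_nonneg _ _)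
      rw [h3, q, Finsupp.linearCombination_single] at h2
      simp at h2
      rw [fn_zero]
      exact (pow_eq_zero_iff two_ne_zero).1 h2.symm
    · rintro rfl
      rw [norm_def]
      simp only [fn_zero, p_zero]
      simp

noncomputable instance : NormedAddCommGroup (XX Adm) := NormedAddCommGroup.ofCore core
noncomputable instance : NormedSpace ℝ (XX Adm) := NormedSpace.ofCore core

theorem coord_le (x : XX Adm) (c : Γ) : |fn x c| ≤ ‖x‖ := by
  have h1 := p_le_norm x (single_mem_GG Adm c)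
  rwa [p, q, Finsupp.linearCombination_single, one_smul, Real.sqrt_sq_eq_abs] at h1

/-- lattice property -/
theorem mem_of_le {x : XX Adm} {y : Γ → ℝ} (h : ∀ c, |y c| ≤ |fn x c|) : y ∈ Sp Adm :=
  ⟨‖x‖, fun _ hg => (p_mono hg.1 h).trans (p_le_norm x hg)⟩

theorem norm_mono {x y : XX Adm} (h : ∀ c, |fn y c| ≤ |fn x c|) : ‖y‖ ≤ ‖x‖ :=
  norm_le' y fun _ hg => (p_mono hg.1 h).trans (p_le_norm x hg)

end space

end Pool.Agent.Helper36.NS
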