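import Mathlib
import Pool.Agent.Helper36.NS.Space

/-!
# The space is reflexive
-/

set_option autoImplicit false

open Finset

namespace Pool.Agent.Helper36.NS

variable {Γ : Type*} {Adm : Finset Γ → Prop}

open Classical in
/-- restriction to a finite set of coordinates -/
noncomputable def P (A : Finset Γ) (x : XX Adm) : XX Adm :=
  ⟨fun c => if c ∈ A then fn x c else 0, mem_of_le (x := x) fun c => by
    split_ifs
    · exact le_rfl
    · rw [abs_zero]; exact abs_nonneg _⟩

open Classical in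
theorem fn_P (A : Finset Γ) (x : XX Adm) (c : Γ) :
    fn (P A x) c = if c ∈ A then fn x c else 0 := rfl

theorem norm_P_le (A : Finset Γ) (x : XX Adm) : ‖P A x‖ ≤ ‖x‖ := by
  apply norm_mono
  intro c
  rw [fn_P]
  split_ifs
  · exact le_rfl
  · rw [abs_zero]; exact abs_nonneg _

theorem fn_sub_P (A : Finset Γ) (x : XX Adm) (c : Γ) [Decidable (c ∈ A)] :
    fn (x - P A x) c = if c ∈ A then 0 else fn x c := by
  rw [fn_sub, Pi.sub_apply, fn_P]
  by_cases h : c ∈ A
  · simp [h]
  · simp [h]

theorem norm_sub_P_le (A : Finset Γ) (x : XX Adm) : ‖x - P A x‖ ≤ ‖x‖ := by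
  classical
  apply norm_mono
  intro c
  rw [fn_sub_P]
  split_ifs
  · rw [abs_zero]; exact abs_nonneg _
  · exact le_rfl

section dense

variable [DecidableEq Γ] (hered : ∀ F F' : Finset Γ, Adm F → F' ⊆ F → Adm F')
  (hfin : ∀ G : Set Γ, (∀ F : Finset Γ, (F : Set Γ) ⊆ G → Adm F) → G.Finite)

include hered hfin

/-- finitely supported vectors are dense -/
theorem dens (x : XX Adm) {ε : ℝ} (hε : 0 < ε) : ∃ A : Finset Γ, ‖x - P A x‖ ≤ ε := by
  classical
  by_contra hcon
  push Not at hcon
  -- weights off a given finite set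
  have hstep : ∀ A : Finset Γ, ∃ g ∈ GG Adm, Disjoint g.support A ∧ ε ^ 2 < q g (fn x) := by
    intro A
    have h1 := hcon A
    rw [norm_def] at h1
    obtain ⟨⟨g, hg⟩, hg1⟩ := exists_lt_of_lt_ciSup h1
    simp only at hg1
    have hg2 : ε ^ 2 < q g (fn (x - P A x)) := by
      rw [← p_sq hg.1]
      exact pow_lt_pow_left₀ hg1 hε.le two_ne_zero
    refine ⟨g.filter (fun c => c ∉ A), ⟨fun c => ?_, fun F hF => ?_⟩, ?_, ?_⟩
    · by_cases hc : c ∈ A
      · simp [hc]
      · simpa [hc] using hg.1 c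
    · refine le_trans (Finset.sum_le_sum fun c _ => ?_) (hg.2 F hF)
      by_cases hc : c ∈ A
      · simpa [hc] using hg.1 c
      · simp [hc]
    · rw [Finset.disjoint_left]
      intro c hc
      rw [Finsupp.support_filter, Finset.mem_filter] at hc
      exact hc.2
    · refine hg2.trans_le (le_of_eq ?_)
      rw [q_eq, q_eq_of_subset (g.filter (fun c => c ∉ A)) (fn x) g.support]
      · apply Finset.sum_congr rfl
        intro c _
        rw [fn_sub_P, Finsupp.filter_apply]
        by_cases h : c ∈ A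
        · simp [h]
        · simp [h]
      · rw [Finsupp.support_filter]
        exact Finset.filter_subset _ _
  choose g hg hgd hgq using hstep
  set A : ℕ → Finset Γ := fun n => (fun B => B ∪ (g B).support)^[n] ∅ with hA
  have hAs : ∀ n, A (n + 1) = A n ∪ (g (A n)).support := fun n =>
    Function.iterate_succ_apply' (fun B => B ∪ (g B).support) n ∅
  have hAmono : Monotone A := monotone_nat_of_le_succ fun n => by
    rw [hAs]; exact Finset.subset_union_left
  have hd : ∀ i j, i ≠ j → Disjoint (g (A i)).support (g (A j)).support := by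
    have hlt : ∀ i j, i < j → Disjoint (g (A i)).support (g (A j)).support := by
      intro i j hij
      have h1 : (g (A i)).support ⊆ A j := by
        refine subset_trans ?_ (hAmono (by omega : i + 1 ≤ j))
        rw [hAs]; exact Finset.subset_union_right
      exact (Disjoint.mono_right h1 (hgd (A j))).symm
    intro i j hij
    rcases lt_or_gt_of_ne hij with h | h
    · exact hlt i j h
    · exact (hlt j i h).symm
  set η : ℝ := ε ^ 2 / (‖x‖ ^ 2 + 1) with hη
  have hη0 : 0 < η := by positivity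
  obtain ⟨N', _, h, hh, hsm⟩ := good_all hered hfin (fun n => g (A n)) (fun n => hg (A n)) hd η hη0 0
  have hhG : h ∈ GG Adm := hull_GG (fun n => hg (A n)) hh
  have hhq : ε ^ 2 ≤ q h (fn x) := by
    have hconv : Convex ℝ {k : Γ →₀ ℝ | ε ^ 2 ≤ q k (fn x)} := by
      intro a ha b hb s t hs ht hst
      simp only [Set.mem_ofPred_eq] at ha hb ⊢
      unfold q at *
      rw [map_add, map_smul, map_smul, smul_eq_mul, smul_eq_mul]
      have h1 := mul_le_mul_of_nonneg_left ha hs
      have h2 := mul_le_mul_of_nonneg_left hb ht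
      have h3 : s * ε ^ 2 + t * ε ^ 2 = ε ^ 2 := by rw [← add_mul, hst, one_mul]
      linarith
    apply convexHull_min _ hconv hh
    rintro _ ⟨n, _, rfl⟩
    exact (hgq (A n)).le
  have hsG : η⁻¹ • h ∈ GG Adm := by
    refine ⟨fun c => ?_, fun F hF => ?_⟩
    · rw [Finsupp.smul_apply, smul_eq_mul]
      exact mul_nonneg (inv_nonneg.2 hη0.le) (hhG.1 c)
    · simp only [Finsupp.smul_apply, smul_eq_mul]
      rw [← Finset.mul_sum, inv_mul_le_iff₀ hη0, mul_one]
      exact (hsm F hF).le
  have h1 := p_le_norm x hsG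
  have h2 : q (η⁻¹ • h) (fn x) ≤ ‖x‖ ^ 2 := by
    rw [← p_sq hsG.1]
    exact pow_le_pow_left₀ (p_nonneg _ _) h1 2
  have h3 : q (η⁻¹ • h) (fn x) = η⁻¹ * q h (fn x) := by
    unfold q
    rw [map_smul, smul_eq_mul]
  rw [h3, inv_mul_le_iff₀ hη0, hη] at h2
  have h4 : ε ^ 2 / (‖x‖ ^ 2 + 1) * ‖x‖ ^ 2 < ε ^ 2 := by
    rw [div_mul_eq_mul_div, div_lt_iff₀ (by positivity)]
    have : 0 < ε ^ 2 := by positivity
    nlinarith
  linarith

end dense

/-- upper 2-estimate for disjoint vectors -/
theorem norm_sum_le (y : ℕ → XX Adm) (hy : ∀ i, ‖y i‖ ≤ 1)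
    (hd : ∀ i j, i ≠ j → ∀ c, fn (y i) c = 0 ∨ fn (y j) c = 0) (m : ℕ) :
    ‖∑ i ∈ Finset.range m, y i‖ ≤ Real.sqrt m := by
  apply norm_le'
  intro g hg
  apply Real.sqrt_le_sqrt
  have hsum : ∀ m : ℕ, fn (∑ i ∈ Finset.range m, y i) = ∑ i ∈ Finset.range m, fn (y i) := by
    intro m
    exact map_sum (fnL (Adm := Adm)) y (Finset.range m)
  have hq : q g (fn (∑ i ∈ Finset.range m, y i)) = ∑ i ∈ Finset.range m, q g (fn (y i)) := by
    have hpt : ∀ c, (fn (∑ i ∈ Finset.range m, y i) c) ^ 2 =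
        ∑ i ∈ Finset.range m, (fn (y i) c) ^ 2 := by
      intro c
      rw [hsum, Finset.sum_apply]
      by_cases hex : ∃ i ∈ Finset.range m, fn (y i) c ≠ 0
      · obtain ⟨i, hi, hic⟩ := hex
        have hz : ∀ j ∈ Finset.range m, j ≠ i → fn (y j) c = 0 := by
          intro j _ hji
          rcases hd j i hji c with h | h
          · exact h
          · exact absurd h hic
        rw [Finset.sum_eq_single_of_mem i hi (fun j hj hji => hz j hj hji),
          Finset.sum_eq_single_of_mem i hi (fun j hj hji => by rw [hz j hj hji]; ring)]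
      · push Not at hex
        rw [Finset.sum_eq_zero (fun i hi => hex i hi),
          Finset.sum_eq_zero (fun i hi => by rw [hex i hi]; ring)]
        ring
    simp only [q_eq, hpt, Finset.mul_sum]
    rw [Finset.sum_comm]
  rw [hq]
  calc ∑ i ∈ Finset.range m, q g (fn (y i)) ≤ ∑ i ∈ Finset.range m, (1 : ℝ) := by
        apply Finset.sum_le_sum
        intro i _
        rw [← p_sq hg.1]
        have h1 := (p_le_norm (y i) hg).trans (hy i)
        have h2 := p_nonneg g (fn (y i))
        nlinarith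
    _ = m := by rw [Finset.sum_const, Finset.card_range, nsmul_eq_mul, mul_one]

section shrink

variable [DecidableEq Γ] (hered : ∀ F F' : Finset Γ, Adm F → F' ⊆ F → Adm F')
  (hfin : ∀ G : Set Γ, (∀ F : Finset Γ, (F : Set Γ) ⊆ G → Adm F) → G.Finite)

include hered hfin

/-- functionals are approximated by their finite restrictions -/
theorem shrink (f : StrongDual ℝ (XX Adm)) {ε : ℝ} (hε : 0 < ε) :
    ∃ A : Finset Γ, ∀ x, |f (x - P A x)| ≤ ε * ‖x‖ := by
  classical
  by_contra hcon
  push Not at hcon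
  -- a finitely supported vector off a given finite set
  have hstep : ∀ A : Finset Γ, ∃ y : XX Adm, ∃ B : Finset Γ, ‖y‖ ≤ 1 ∧ ε / 2 < f y ∧
      (∀ c, c ∈ A → fn y c = 0) ∧ (∀ c, c ∉ B → fn y c = 0) := by
    intro A
    obtain ⟨x, hx⟩ := hcon A
    have hx0 : 0 < ‖x‖ := by
      rcases (norm_nonneg x).eq_or_lt with h | h
      · exfalso
        have hx1 : x = 0 := norm_eq_zero.1 h.symm
        have hP : (x - P A x) = 0 := by
          apply fn_inj
          funext c
          rw [fn_sub_P, hx1, fn_zero]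
          split_ifs <;> rfl
        rw [hP, map_zero, abs_zero, ← h, mul_zero] at hx
        exact lt_irrefl _ hx
      · exact h
    set z : XX Adm := ‖x‖⁻¹ • (x - P A x) with hz
    have hz1 : ‖z‖ ≤ 1 := by
      rw [hz, norm_smul, norm_inv, norm_norm]
      rw [inv_mul_le_iff₀ hx0, mul_one]
      exact norm_sub_P_le A x
    have hz2 : ε < |f z| := by
      rw [hz, map_smul, smul_eq_mul, abs_mul, abs_of_pos (inv_pos.2 hx0)]
      rw [lt_inv_mul_iff₀ hx0, mul_comm]
      exact hx
    have hzA : ∀ c ∈ A, fn z c = 0 := by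
      intro c hc
      rw [hz, fn_smul, Pi.smul_apply, fn_sub_P, if_pos hc, smul_zero]
    obtain ⟨B, hB⟩ := dens hered hfin z (ε := (ε / 2) / (‖f‖ + 1)) (by positivity)
    have hfB : |f (z - P B z)| ≤ ε / 2 := by
      have h1 := f.le_opNorm (z - P B z)
      rw [Real.norm_eq_abs] at h1
      have h2 : ‖f‖ * ‖z - P B z‖ ≤ ‖f‖ * ((ε / 2) / (‖f‖ + 1)) :=
        mul_le_mul_of_nonneg_left hB (norm_nonneg f)
      have h3 : ‖f‖ * ((ε / 2) / (‖f‖ + 1)) ≤ ε / 2 := by
        rw [mul_div_assoc', div_le_iff₀ (by positivity)]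
        have := norm_nonneg f
        nlinarith
      linarith
    have hfz : f z = f (z - P B z) + f (P B z) := by rw [← map_add]; congr 1; abel
    have hbig : ε / 2 < |f (P B z)| := by
      rw [hfz] at hz2
      have := abs_add_le (f (z - P B z)) (f (P B z))
      linarith
    have hPA : ∀ c ∈ A, fn (P B z) c = 0 := by
      intro c hc
      rw [fn_P, hzA c hc]
      split_ifs <;> rfl
    have hPB : ∀ c, c ∉ B → fn (P B z) c = 0 := by
      intro c hc
      rw [fn_P, if_neg hc]
    rcases lt_max_iff.1 (show ε / 2 < max (f (P B z)) (-f (P B z)) from hbig) with h | h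
    · exact ⟨P B z, B, (norm_P_le B z).trans hz1, h, hPA, hPB⟩
    · refine ⟨-P B z, B, by rw [norm_neg]; exact (norm_P_le B z).trans hz1,
        by rw [map_neg]; exact h, fun c hc => ?_, fun c hc => ?_⟩
      · rw [fn_neg, Pi.neg_apply, hPA c hc, neg_zero]
      · rw [fn_neg, Pi.neg_apply, hPB c hc, neg_zero]
  choose y B hy1 hyf hyA hyB using hstep
  set A : ℕ → Finset Γ := fun n => (fun C => C ∪ B C)^[n] ∅ with hA
  have hAs : ∀ n, A (n + 1) = A n ∪ B (A n) := fun n =>
    Function.iterate_succ_apply' (fun C => C ∪ B C) n ∅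
  have hAmono : Monotone A := monotone_nat_of_le_succ fun n => by
    rw [hAs]; exact Finset.subset_union_left
  have hd : ∀ i j, i ≠ j → ∀ c, fn (y (A i)) c = 0 ∨ fn (y (A j)) c = 0 := by
    have hlt : ∀ i j, i < j → ∀ c, fn (y (A i)) c = 0 ∨ fn (y (A j)) c = 0 := by
      intro i j hij c
      by_cases hc : c ∈ B (A i)
      · right
        apply hyA
        apply hAmono (by omega : i + 1 ≤ j)
        rw [hAs]
        exact Finset.mem_union_right _ hc
      · left
        exact hyB _ _ hc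
    intro i j hij c
    rcases lt_or_gt_of_ne hij with h | h
    · exact hlt i j h c
    · exact (hlt j i h c).symm
  have hkey : ∀ m : ℕ, (m : ℝ) * (ε / 2) ≤ ‖f‖ * Real.sqrt m := by
    intro m
    have h1 := norm_sum_le (fun i => y (A i)) (fun i => hy1 (A i)) hd m
    have h2 : (m : ℝ) * (ε / 2) ≤ f (∑ i ∈ Finset.range m, y (A i)) := by
      rw [map_sum]
      calc (m : ℝ) * (ε / 2) = ∑ i ∈ Finset.range m, (ε / 2) := by
            rw [Finset.sum_const, Finset.card_range, nsmul_eq_mul]
        _ ≤ _ := Finset.sum_le_sum fun i _ => (hyf (A i)).le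
    have h3 := f.le_opNorm (∑ i ∈ Finset.range m, y (A i))
    rw [Real.norm_eq_abs] at h3
    calc (m : ℝ) * (ε / 2) ≤ _ := h2
      _ ≤ _ := (le_abs_self _).trans h3
      _ ≤ ‖f‖ * Real.sqrt m := mul_le_mul_of_nonneg_left h1 (norm_nonneg f)
  obtain ⟨n, hn⟩ := exists_nat_gt (‖f‖ / (ε / 2))
  have hn0 : 0 < n := by
    have : (0 : ℝ) < n := lt_of_le_of_lt (by positivity) hn
    exact_mod_cast this
  have hnR : (0 : ℝ) < n := by exact_mod_cast hn0
  have h5 := hkey (n ^ 2)
  push_cast at h5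
  rw [Real.sqrt_sq hnR.le] at h5
  rw [div_lt_iff₀ (by positivity)] at hn
  have h6 : (n : ℝ) * (n * (ε / 2)) ≤ n * ‖f‖ := by nlinarith
  have h7 := le_of_mul_le_mul_left h6 hnR
  linarith

end shrink

/-- the coordinate functionals -/
noncomputable def coord (c : Γ) : StrongDual ℝ (XX Adm) :=
  LinearMap.mkContinuous
    { toFun := fun x => fn x c
      map_add' := fun _ _ => rfl
      map_smul' := fun _ _ => rfl } 1 (fun x => by
        rw [one_mul, Real.norm_eq_abs]; exact coord_le x c)

theorem coord_apply (c : Γ) (x : XX Adm) : coord c x = fn x c := rfl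

section refl

variable [DecidableEq Γ] (hsing : ∀ c, Adm {c})

include hsing

theorem GG_le_one {g : Γ →₀ ℝ} (hg : g ∈ GG Adm) (c : Γ) : g c ≤ 1 := by
  have := hg.2 {c} (hsing c)
  rwa [Finset.sum_singleton] at this

theorem fin_mem (s : Finset Γ) (y : Γ → ℝ) : (fun c => if c ∈ s then y c else 0) ∈ Sp Adm := by
  classical
  refine ⟨Real.sqrt (∑ c ∈ s, y c ^ 2), fun g hg => Real.sqrt_le_sqrt ?_⟩
  rw [q_eq_of_subset g _ (g.support ∪ s) Finset.subset_union_left,
    ← Finset.sum_subset (Finset.subset_union_right : s ⊆ g.support ∪ s)]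
  · apply Finset.sum_le_sum
    intro c hc
    rw [if_pos hc]
    have := GG_le_one hsing hg c
    have := sq_nonneg (y c)
    nlinarith
  · intro c _ hc
    rw [if_neg hc]
    ring

/-- finitely supported vectors -/
noncomputable def fin (s : Finset Γ) (y : Γ → ℝ) : XX Adm :=
  ⟨fun c => if c ∈ s then y c else 0, fin_mem hsing s y⟩

omit hsing in
theorem fn_fin (hsing : ∀ c, Adm {c}) (s : Finset Γ) (y : Γ → ℝ) (c : Γ) :
    fn (fin hsing s y) c = if c ∈ s then y c else 0 := rfl

theorem P_eq_sum (A : Finset Γ) (x : XX Adm) :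
    P A x = ∑ c ∈ A, fn x c • fin hsing {c} (fun _ => 1) := by
  classical
  apply fn_inj
  have h1 : fn (∑ c ∈ A, fn x c • fin hsing {c} (fun _ => 1)) =
      ∑ c ∈ A, fn (fn x c • fin hsing {c} (fun _ => 1)) :=
    map_sum (fnL (Adm := Adm)) _ A
  rw [h1]
  funext c
  rw [Finset.sum_apply, fn_P]
  have h2 : ∀ d ∈ A, fn (fn x d • fin hsing {d} (fun _ => 1)) c = if c = d then fn x d else 0 := by
    intro d _
    simp only [fn_smul, Pi.smul_apply, fn_fin, Finset.mem_singleton, smul_eq_mul, mul_ite,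
      mul_one, mul_zero]
  rw [Finset.sum_congr rfl h2, Finset.sum_ite_eq]
  split_ifs <;> rfl

variable (hered : ∀ F F' : Finset Γ, Adm F → F' ⊆ F → Adm F')
  (hfin : ∀ G : Set Γ, (∀ F : Finset Γ, (F : Set Γ) ⊆ G → Adm F) → G.Finite)

include hered hfin

/-- the space is reflexive -/
theorem reflexive : Function.Surjective (NormedSpace.inclusionInDoubleDual ℝ (XX Adm)) := by
  classical
  intro Φ
  set x : Γ → ℝ := fun c => Φ (coord c) with hx
  have hbound : ∀ g ∈ GG Adm, p g x ≤ ‖Φ‖ := by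
    intro g hg
    set f : StrongDual ℝ (XX Adm) := ∑ c ∈ g.support, (g c * x c) • coord c with hf
    have h1 : Φ f = p g x ^ 2 := by
      rw [hf, map_sum, p_sq hg.1, q_eq]
      apply Finset.sum_congr rfl
      intro c _
      rw [map_smul, smul_eq_mul, hx]
      ring
    have h2 : ‖f‖ ≤ p g x := by
      apply ContinuousLinearMap.opNorm_le_bound _ (p_nonneg g x)
      intro y
      have h3 : ∀ z : XX Adm, f z = ∑ c ∈ g.support, g c * x c * fn z c := by
        intro z
        rw [hf, ContinuousLinearMap.sum_apply]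
        apply Finset.sum_congr rfl
        intro c _
        rw [ContinuousLinearMap.smul_apply, coord_apply, smul_eq_mul]
      have h4 : ∀ z : XX Adm, f z ≤ p g x * ‖z‖ := by
        intro z
        rw [h3]
        exact (cs hg.1 x (fn z)).trans
          (mul_le_mul_of_nonneg_left (p_le_norm z hg) (p_nonneg g x))
      rw [Real.norm_eq_abs, abs_le]
      refine ⟨?_, h4 y⟩
      have := h4 (-y)
      rw [map_neg, norm_neg] at this
      linarith
    have h5 : p g x ^ 2 ≤ ‖Φ‖ * p g x := by
      rw [← h1]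
      exact (le_abs_self _).trans ((Φ.le_opNorm f).trans
        (mul_le_mul_of_nonneg_left h2 (norm_nonneg Φ)))
    rcases (p_nonneg g x).eq_or_lt with h | h
    · rw [← h]; exact norm_nonneg Φ
    · rw [sq] at h5
      exact le_of_mul_le_mul_right h5 h
  set xx : XX Adm := ⟨x, ‖Φ‖, hbound⟩ with hxx
  have hfnxx : fn xx = x := rfl
  refine ⟨xx, ?_⟩
  ext f
  rw [NormedSpace.dual_def]
  -- compare on finite restrictions
  apply eq_of_forall_dist_le
  intro ε hε
  obtain ⟨A, hA⟩ := shrink hered hfin f (ε := ε / (‖Φ‖ + ‖xx‖ + 1)) (by positivity)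
  set f' : StrongDual ℝ (XX Adm) := ∑ c ∈ A, f (fin hsing {c} (fun _ => 1)) • coord c with hf'
  have hf'a : ∀ z, f' z = f (P A z) := by
    intro z
    rw [P_eq_sum hsing, map_sum, hf', ContinuousLinearMap.sum_apply]
    apply Finset.sum_congr rfl
    intro c _
    rw [ContinuousLinearMap.smul_apply, coord_apply, map_smul, smul_eq_mul, smul_eq_mul, mul_comm]
  have hdiff : ‖f - f'‖ ≤ ε / (‖Φ‖ + ‖xx‖ + 1) := by
    apply ContinuousLinearMap.opNorm_le_bound _ (by positivity)
    intro z
    rw [ContinuousLinearMap.sub_apply, hf'a, ← map_sub, Real.norm_eq_abs]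
    exact hA z
  have hΦf' : Φ f' = f' xx := by
    rw [hf', map_sum, ContinuousLinearMap.sum_apply]
    apply Finset.sum_congr rfl
    intro c _
    rw [ContinuousLinearMap.smul_apply, coord_apply, map_smul, hfnxx]
  have h1 : |(f - f') xx| ≤ ε / (‖Φ‖ + ‖xx‖ + 1) * ‖xx‖ :=
    ((f - f').le_opNorm xx).trans (mul_le_mul_of_nonneg_right hdiff (norm_nonneg _))
  have h2 : |Φ (f - f')| ≤ ε / (‖Φ‖ + ‖xx‖ + 1) * ‖Φ‖ := by
    rw [mul_comm]
    exact (Φ.le_opNorm (f - f')).trans (mul_le_mul_of_nonneg_left hdiff (norm_nonneg _))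
  have h3 : f xx - Φ f = (f - f') xx - Φ (f - f') := by
    rw [map_sub, ContinuousLinearMap.sub_apply, hΦf']
    ring
  rw [Real.dist_eq, h3]
  calc |(f - f') xx - Φ (f - f')| ≤ |(f - f') xx| + |Φ (f - f')| := abs_sub _ _
    _ ≤ ε / (‖Φ‖ + ‖xx‖ + 1) * ‖xx‖ + ε / (‖Φ‖ + ‖xx‖ + 1) * ‖Φ‖ := add_le_add h1 h2
    _ ≤ ε := by
      rw [← mul_add, div_mul_eq_mul_div, div_le_iff₀ (by positivity)]
      have h8 := norm_nonneg Φ
      have h9 := norm_nonneg xx
      nlinarith

/-- hence complete -/
theorem complete : CompleteSpace (XX Adm) := by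
  have hs := reflexive hsing hered hfin
  have hi : Isometry (NormedSpace.inclusionInDoubleDualLi (E := XX Adm) ℝ) :=
    (NormedSpace.inclusionInDoubleDualLi (E := XX Adm) ℝ).isometry
  have hs' : Function.Surjective (NormedSpace.inclusionInDoubleDualLi (E := XX Adm) ℝ) := hs
  exact (completeSpace_congr (e := Equiv.ofBijective _ ⟨hi.injective, hs'⟩)
    hi.isUniformEmbedding).2 inferInstance

end refl

end Pool.Agent.Helper36.NS
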