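import Mathlib
import Pool.Agent.Helper36.NS.Reflexive

/-!
# Finitely supported vectors
-/

set_option autoImplicit false

open Finset

namespace Pool.Agent.Helper36.NS

variable {Γ : Type*} {Adm : Finset Γ → Prop} [DecidableEq Γ] (hsing : ∀ c, Adm {c})

/-- vectors with coefficients at most one on an admissible set lie in the unit ball -/
theorem norm_fin_le (s : Finset Γ) (hs : Adm s) (y : Γ → ℝ) (hy : ∀ c ∈ s, |y c| ≤ 1) :
    ‖fin hsing s y‖ ≤ 1 := by
  apply norm_le'
  intro g hg
  have h1 : q g (fn (fin hsing s y)) ≤ 1 := by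
    rw [q_eq_of_subset g _ (g.support ∪ s) Finset.subset_union_left,
      ← Finset.sum_subset (Finset.subset_union_right : s ⊆ g.support ∪ s)]
    · refine le_trans (Finset.sum_le_sum fun c hc => ?_) (hg.2 s hs)
      rw [fn_fin, if_pos hc]
      have h2 : y c ^ 2 ≤ 1 := by
        have := hy c hc
        rw [← sq_abs]
        exact pow_le_one₀ (abs_nonneg _) this
      have := hg.1 c
      nlinarith
    · intro c _ hc
      rw [fn_fin, if_neg hc]
      ring
  have h3 := p_sq hg.1 (fn (fin hsing s y))
  have h4 := p_nonneg g (fn (fin hsing s y))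
  nlinarith

/-- a vector with a coefficient of absolute value one has norm at least one -/
theorem one_le_norm_fin (s : Finset Γ) (y : Γ → ℝ) {c : Γ} (hc : c ∈ s) (hy : |y c| = 1) :
    1 ≤ ‖fin hsing s y‖ := by
  have h := coord_le (fin hsing s y) c
  rwa [fn_fin, if_pos hc, hy] at h

/-- sums of vectors with disjoint supports -/
theorem fin_add_of_disjoint (s t : Finset Γ) (hst : Disjoint s t) (y z : Γ → ℝ) :
    fin hsing s y + fin hsing t z = fin hsing (s ∪ t) (fun c => if c ∈ s then y c else z c) := by
  apply fn_inj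
  funext c
  rw [fn_add, Pi.add_apply, fn_fin, fn_fin, fn_fin]
  by_cases h1 : c ∈ s
  · have h2 : c ∉ t := Finset.disjoint_left.1 hst h1
    simp [h1, h2]
  · by_cases h2 : c ∈ t
    · simp [h1, h2]
    · simp [h1, h2]

theorem fin_neg (s : Finset Γ) (y : Γ → ℝ) : -fin hsing s y = fin hsing s (fun c => -y c) := by
  apply fn_inj
  funext c
  rw [fn_neg, Pi.neg_apply, fn_fin, fn_fin]
  split_ifs
  · rfl
  · exact neg_zero

theorem fin_sub_of_disjoint (s t : Finset Γ) (hst : Disjoint s t) (y z : Γ → ℝ) :
    fin hsing s y - fin hsing t z = fin hsing (s ∪ t) (fun c => if c ∈ s then y c else -z c) := by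
  rw [sub_eq_add_neg, fin_neg, fin_add_of_disjoint hsing s t hst]

end Pool.Agent.Helper36.NS
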